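import Mathlib

namespace Pool.Agent.H.MP_7ad892_an

open Set Filter Topology
open scoped ZeroAtInfty

section Sinclair

variable {A M : Type*} [NonUnitalRing A] [Module ℂ A] [Ring M] [Algebra ℂ M]
  (R : A →ₗ[ℂ] M) (D : A →ₗ[ℂ] A)

/-- Vanishing order of `b` along `D`, seen through `R`. -/
def Ord : ℕ → A → M → Prop
  | 0, b, T => R b = T
  | n + 1, b, T => R b = 0 ∧ Ord n (D b) T

variable {R D}

lemma Ord.add : ∀ {n b b' T T'}, Ord R D n b T → Ord R D n b' T' → Ord R D n (b + b') (T + T')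
  | 0, b, b', T, T', h, h' => by
    simp only [Ord] at *; rw [map_add, h, h']
  | n + 1, b, b', T, T', h, h' => by
    refine ⟨by rw [map_add, h.1, h'.1, add_zero], ?_⟩
    rw [map_add]; exact h.2.add h'.2

lemma Ord.weak : ∀ {n b T}, Ord R D (n + 1) b T → Ord R D n b 0
  | 0, _, _, h => h.1
  | _ + 1, _, _, h => ⟨h.1, Ord.weak h.2⟩

lemma Ord.iter : ∀ {n b T}, Ord R D n b T → R (D^[n] b) = T
  | 0, _, _, h => h
  | n + 1, _, _, h => Ord.iter (n := n) h.2

variable (hR : ∀ a b, R (a * b) = R a * R b) (hD : ∀ a b, D (a * b) = D a * b + a * D b)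
include hR hD

lemma Ord.mul0 : ∀ {n} (c) {b T}, Ord R D n b T → Ord R D n (c * b) (R c * T)
  | 0, c, b, T, h => by simp only [Ord] at *; rw [hR, h]
  | n + 1, c, b, T, h => by
    refine ⟨by rw [hR, h.1, mul_zero], ?_⟩
    have := (Ord.mul0 (D c) h.weak).add (Ord.mul0 c h.2)
    rwa [mul_zero, zero_add, ← hD] at this

lemma Ord.mul1 {c : A} (hc : R c = 0) :
    ∀ {n b T}, Ord R D n b T → Ord R D (n + 1) (c * b) (((n + 1 : ℕ) : ℂ) • (R (D c) * T))
  | 0, b, T, h => by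
    refine ⟨by rw [hR, hc, zero_mul], ?_⟩
    simp only [Ord] at *
    rw [hD, map_add, hR, hR, hc, h]; simp
  | n + 1, b, T, h => by
    refine ⟨by rw [hR, hc, zero_mul], ?_⟩
    have := (Ord.mul0 hR hD (D c) h).add (Ord.mul1 hc h.2)
    rw [← hD] at this
    convert this using 1
    push_cast
    module

/-- Powers in a non-unital ring. -/
def pw (c : A) : ℕ → A
  | 0 => c
  | k + 1 => c * pw c k

lemma ord_pw {c : A} (hc : R c = 0) (k : ℕ) :
    Ord R D (k + 1) (pw c k) ((((k + 1).factorial : ℕ) : ℂ) • R (D c) ^ (k + 1)) := by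
  induction k with
  | zero => exact ⟨hc, by simp [Ord, pw]⟩
  | succ k ih =>
    have := Ord.mul1 hR hD hc ih
    have e : (((k + 1 + 1).factorial : ℕ) : ℂ) • R (D c) ^ (k + 1 + 1) =
        ((k + 1 + 1 : ℕ) : ℂ) • (R (D c) * (((k + 1).factorial : ℕ) : ℂ) • R (D c) ^ (k + 1)) := by
      rw [Nat.factorial_succ (k + 1), pow_succ' _ (k + 1), mul_smul_comm, smul_smul]
      push_cast; rfl
    rw [e]; exact this

end Sinclair

variable {Ω : Type*} [TopologicalSpace Ω]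

lemma bump [T2Space Ω] [LocallyCompactSpace Ω] (T : Set Ω) (hT : T.Finite) (w : Ω) :
    ∃ g : C₀(Ω, ℂ), g w = 1 ∧ ∀ v ∈ T, v ≠ w → g v = 0 := by
  obtain ⟨f, h1, h0, hc, -⟩ := exists_continuous_one_zero_of_isCompact (isCompact_singleton (x := w))
    (hT.subset (diff_subset (t := {w}))).isClosed disjoint_sdiff_right
  refine ⟨⟨⟨fun x => (f x : ℂ), by fun_prop⟩, ?_⟩, ?_, ?_⟩
  · have := hc.is_zero_at_infty
    simpa [Function.comp_def] using (Complex.continuous_ofReal.tendsto 0).comp this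
  · change ((f w : ℝ) : ℂ) = 1
    simp [h1 (mem_singleton w)]
  · intro v hv hvw
    change ((f v : ℝ) : ℂ) = 0
    simp [h0 (show v ∈ T \ {w} from ⟨hv, hvw⟩)]

lemma nrm_le {G : C₀(Ω, ℂ)} {ε : ℝ} (hε : 0 ≤ ε) (h : ∀ x, ‖G x‖ ≤ ε) : ‖G‖ ≤ ε := by
  rw [← ZeroAtInftyContinuousMap.norm_toBCF_eq_norm]
  exact (BoundedContinuousFunction.norm_le hε).2 h

lemma le_nrm (G : C₀(Ω, ℂ)) (x : Ω) : ‖G x‖ ≤ ‖G‖ := by
  rw [← ZeroAtInftyContinuousMap.norm_toBCF_eq_norm]
  exact G.toBCF.norm_coe_le_norm x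

lemma cutoff (G : C₀(Ω, ℂ)) {ε : ℝ} (hε : 0 < ε) :
    ∃ k : C₀(Ω, ℂ), (∀ x, G x = 0 → k x = 0) ∧ ‖G - G * k‖ ≤ ε := by
  have hc : Continuous fun s : ℂ => ((min 1 (‖s‖ / ε) : ℝ) : ℂ) := by fun_prop
  refine ⟨⟨⟨fun x => ((min 1 (‖G x‖ / ε) : ℝ) : ℂ), hc.comp G.continuous⟩, ?_⟩, ?_, ?_⟩
  · simpa [Function.comp_def] using (hc.tendsto 0).comp G.zero_at_infty'
  · intro x hx; simp [hx]
  · refine nrm_le hε.le fun x => ?_
    change ‖G x - G x * ((min 1 (‖G x‖ / ε) : ℝ) : ℂ)‖ ≤ ε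
    rcases le_total 1 (‖G x‖ / ε) with h | h
    · simp [min_eq_left h, hε.le]
    · rw [min_eq_right h, ← mul_one_sub, norm_mul]
      have h1 : ‖G x‖ ≤ ε := by rwa [div_le_one hε] at h
      have h2 : ‖1 - ((‖G x‖ / ε : ℝ) : ℂ)‖ ≤ 1 := by
        rw [← Complex.ofReal_one, ← Complex.ofReal_sub, Complex.norm_real, Real.norm_eq_abs,
          abs_le]
        have : 0 ≤ ‖G x‖ / ε := by positivity
        constructor <;> linarith
      calc _ ≤ ε * 1 := by gcongr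
        _ = ε := mul_one ε

lemma coef_zero {u : ℕ → ℂ} {C : ℝ} (hu : ∀ k, ‖u k‖ ≤ C)
    (h : ∀ z : ℂ, z ≠ 0 → ‖z‖ < 1 → ∑' k, z ^ k * u k = 0) (n : ℕ) : u n = 0 := by
  induction n using Nat.strong_induction_on with
  | _ n ih =>
  have hC : 0 ≤ C := (norm_nonneg _).trans (hu 0)
  have key : ∀ r : ℝ, 0 < r → r ≤ 1 / 2 → ‖u n‖ ≤ 2 * C * r := by
    intro r hr hr1
    have hz : ‖(r : ℂ)‖ = r := by simp [hr.le]
    have hs : ∀ m, Summable fun k => (r : ℂ) ^ k * u (k + m) := fun m =>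
      Summable.of_norm_bounded ((summable_geometric_of_lt_one hr.le (by linarith)).mul_right C)
        fun k => by rw [norm_mul, norm_pow, hz]; gcongr; exact hu _
    have h0 := h r (by simpa using hr.ne') (by rw [hz]; linarith)
    have hs0 : Summable fun k => (r : ℂ) ^ k * u k := by simpa using hs 0
    rw [← hs0.sum_add_tsum_nat_add (n + 1), Finset.sum_range_succ, Finset.sum_eq_zero
      (fun i hi => by rw [ih i (Finset.mem_range.1 hi), mul_zero]), zero_add] at h0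
    have e : ∑' i, (r : ℂ) ^ (i + (n + 1)) * u (i + (n + 1)) =
        (r : ℂ) ^ n * (r * ∑' i, (r : ℂ) ^ i * u (i + (n + 1))) := by
      rw [← tsum_mul_left, ← tsum_mul_left]; congr 1; ext i; ring
    rw [e, ← mul_add] at h0
    have h1 := (mul_eq_zero.1 h0).resolve_left (pow_ne_zero _ (by simpa using hr.ne'))
    have h2 : ‖∑' i, (r : ℂ) ^ i * u (i + (n + 1))‖ ≤ (1 - r)⁻¹ * C :=
      tsum_of_norm_bounded ((hasSum_geometric_of_lt_one hr.le (by linarith)).mul_right C)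
        fun k => by rw [norm_mul, norm_pow, hz]; gcongr; exact hu _
    have h3 : (1 - r)⁻¹ ≤ 2 := by
      rw [inv_le_comm₀ (by linarith) two_pos]; linarith
    rw [eq_neg_of_add_eq_zero_left h1, norm_neg, norm_mul, hz]
    calc _ ≤ r * (2 * C) := by gcongr; exact h2.trans (by gcongr)
      _ = _ := by ring
  have ht : Tendsto (fun r : ℝ => 2 * C * r) (𝓝[>] 0) (𝓝 0) := by
    have : Continuous fun r : ℝ => 2 * C * r := by fun_prop
    simpa using (this.tendsto 0).mono_left nhdsWithin_le_nhds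
  have := ge_of_tendsto ht (by
    filter_upwards [Ioc_mem_nhdsGT (show (0 : ℝ) < 1 / 2 by norm_num)] with r hr
      using key r hr.1 hr.2)
  simpa using this

/-- Finite sets that are convex for the orbit preorder. -/
def Cvx (σ : Ω → Ω) (S : Finset Ω) : Prop :=
  ∀ y ∈ S, ∀ n k, σ^[n + k] y ∈ S → σ^[k] y ∈ S

omit [TopologicalSpace Ω] in
lemma exists_cvx (σ : Ω → Ω) (x : Ω) (n : ℕ) : ∃ S, Cvx σ S ∧ x ∈ S ∧ σ^[n] x ∈ S := by
  have hf : {v | (∃ i, v = σ^[i] x) ∧ ∃ j, σ^[j] v = σ^[n] x}.Finite := by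
    by_cases hp : ∃ p, 0 < p ∧ σ^[p] (σ^[n] x) = σ^[n] x
    · obtain ⟨p, hp0, hp⟩ := hp
      refine ((finite_Iio (n + p)).image fun i => σ^[i] x).subset ?_
      rintro v ⟨⟨i, rfl⟩, -⟩
      induction i using Nat.strong_induction_on with
      | _ i ih =>
      by_cases hi : i < n + p
      · exact ⟨i, hi, rfl⟩
      · obtain ⟨m, rfl⟩ : ∃ m, i = m + (p + n) := ⟨i - (p + n), by omega⟩
        have := ih (m + n) (by omega)
        rwa [Function.iterate_add_apply, Function.iterate_add_apply, hp,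
          ← Function.iterate_add_apply]
    · refine ((finite_Iic n).image fun i => σ^[i] x).subset ?_
      rintro v ⟨⟨i, rfl⟩, j, hj⟩
      refine ⟨i, ?_, rfl⟩
      by_contra hi
      refine hp ⟨j + i - n, by simp at hi; omega, ?_⟩
      rw [← Function.iterate_add_apply, ← hj, ← Function.iterate_add_apply]
      congr 1; simp at hi; omega
  refine ⟨hf.toFinset, ?_, hf.mem_toFinset.2 ⟨⟨0, rfl⟩, n, rfl⟩,
    hf.mem_toFinset.2 ⟨⟨n, rfl⟩, 0, rfl⟩⟩
  intro y hy m k hk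
  simp only [Finite.mem_toFinset, mem_setOf_eq] at *
  obtain ⟨⟨i, rfl⟩, -⟩ := hy
  obtain ⟨-, j, hj⟩ := hk
  exact ⟨⟨k + i, by rw [Function.iterate_add_apply]⟩, j + m, by
    rw [← hj, Function.iterate_add_apply, Function.iterate_add_apply]⟩

end Pool.Agent.H.MP_7ad892_an
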