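import Pool.Agent.H.MP_7ad892_an.A

namespace Pool.Agent.H.MP_7ad892_an

open Set Filter Topology
open scoped ZeroAtInfty Classical

variable {Ω : Type*} [TopologicalSpace Ω] {A : Type*} [NonUnitalNormedRing A] [NormedSpace ℂ A]

/-- The abstract data of a semicrossed product. -/
structure Dat (σ : Ω → Ω) (A : Type*) [NonUnitalNormedRing A] [NormedSpace ℂ A] where
  H : ℕ → A → C₀(Ω, ℂ) → Prop
  c : ℕ → Ω → A →L[ℂ] ℂ
  p : C₀(Ω, ℂ) → A
  hp : ∀ f, H 0 (p f) f
  ht : ∀ {n a G} (F : C₀(Ω, ℂ)), H n a G → ∃ b G', H (n + 1) b G' ∧ ∀ x, G' x = F (σ^[n] x) * G x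
  hmul : ∀ {n a G m b G'}, H n a G → H m b G' →
    ∃ G'', H (m + n) (a * b) G'' ∧ ∀ x, G'' x = G (σ^[m] x) * G' x
  hsub : ∀ {n a G b G'} (r : ℂ), H n a G → H n b G' → H n (a - r • b) (G - r • G')
  hnorm : ∀ {n a G}, H n a G → ‖a‖ ≤ ‖G‖
  dense : Dense (Submodule.span ℂ {a | ∃ n G, H n a G} : Set A)
  cle : ∀ n x a, ‖c n x a‖ ≤ ‖a‖
  cH : ∀ {n a G}, H n a G → ∀ k y, c k y a = if k = n then G y else 0
  cmul : ∀ {n a G}, H n a G → ∀ b m y, c (m + n) y (a * b) = G (σ^[m] y) * c m y b
  cmul0 : ∀ {n a G}, H n a G → ∀ b k y, k < n → c k y (a * b) = 0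
  sep : ∀ a, (∀ n x, c n x a = 0) → a = 0

namespace Dat

variable {σ : Ω → Ω} (d : Dat σ A) {z : ℂ}

lemma bd (w y : Ω) (a : A) (k : ℕ) :
    ‖z ^ k * (if σ^[k] y = w then d.c k y a else 0)‖ ≤ ‖z‖ ^ k * ‖a‖ := by
  rw [norm_mul, norm_pow]
  gcongr
  split_ifs
  · exact d.cle _ _ _
  · simp

lemma smb (hz : ‖z‖ < 1) (w y : Ω) (a : A) :
    Summable fun k => z ^ k * (if σ^[k] y = w then d.c k y a else 0) :=
  Summable.of_norm_bounded ((summable_geometric_of_lt_one (norm_nonneg z) hz).mul_right ‖a‖)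
    (d.bd w y a)

/-- Matrix entries of the finite dimensional representations. -/
noncomputable def Φ (hz : ‖z‖ < 1) (w y : Ω) : A →L[ℂ] ℂ :=
  LinearMap.mkContinuous
    { toFun := fun a => ∑' k, z ^ k * (if σ^[k] y = w then d.c k y a else 0)
      map_add' := fun a b => by
        rw [← (d.smb hz w y a).tsum_add (d.smb hz w y b)]
        congr 1; ext k; split_ifs <;> simp [mul_add]
      map_smul' := fun r a => by
        simp only [RingHom.id_apply, smul_eq_mul, ← tsum_mul_left]
        congr 1; ext k; split_ifs <;> simp; ring }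
    (1 - ‖z‖)⁻¹ fun a => tsum_of_norm_bounded
      ((hasSum_geometric_of_lt_one (norm_nonneg z) hz).mul_right ‖a‖) (d.bd w y a)

lemma Φ_apply (hz : ‖z‖ < 1) (w y : Ω) (a : A) :
    d.Φ hz w y a = ∑' k, z ^ k * (if σ^[k] y = w then d.c k y a else 0) := rfl

lemma Φ_H (hz : ‖z‖ < 1) (w y : Ω) {n a G} (h : d.H n a G) :
    d.Φ hz w y a = if σ^[n] y = w then z ^ n * G y else 0 := by
  rw [Φ_apply, tsum_eq_single n]
  · simp [d.cH h]
  · intro k hk; simp [d.cH h, hk]

lemma ind {P : A → Prop} (hc : IsClosed {a | P a}) (h0 : P 0) (ha : ∀ a b, P a → P b → P (a + b))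
    (hs : ∀ (r : ℂ) a, P a → P (r • a)) (hH : ∀ n a G, d.H n a G → P a) (a : A) : P a := by
  refine closure_minimal (t := {a | P a}) (fun b hb => ?_) hc (d.dense a)
  refine Submodule.span_induction (p := fun b _ => P b) ?_ h0 (fun a b _ _ => ha a b)
    (fun r a _ => hs r a) hb
  rintro x ⟨n, G, h⟩; exact hH n x G h

variable [IsScalarTower ℂ A A] [SMulCommClass ℂ A A]

lemma Φ_mul (hz : ‖z‖ < 1) {S : Finset Ω} (hS : Cvx σ S) {w y : Ω} (hw : w ∈ S) (hy : y ∈ S)
    (a b : A) : d.Φ hz w y (a * b) = ∑ v ∈ S, d.Φ hz w v a * d.Φ hz v y b := by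
  induction a using d.ind with
  | hc => exact isClosed_eq (by fun_prop) (by fun_prop)
  | h0 => simp
  | ha a a' h h' => simp [add_mul, h, h', Finset.sum_add_distrib]
  | hs r a h => simp [smul_mul_assoc, h, Finset.mul_sum, mul_assoc]
  | hH n a G h =>
    rw [Φ_apply, ← (d.smb hz w y (a * b)).sum_add_tsum_nat_add n, Finset.sum_eq_zero
      (fun i hi => by simp [d.cmul0 h b i y (Finset.mem_range.1 hi)]), zero_add]
    simp only [d.Φ_H hz w _ h, Φ_apply, ← tsum_mul_left]
    rw [← Summable.tsum_finsetSum fun v _ => (d.smb hz v y b).mul_left _]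
    congr 1; ext k
    rw [d.cmul h, add_comm k n, Function.iterate_add_apply]
    by_cases hk : σ^[n] (σ^[k] y) = w
    · have hm : σ^[k] y ∈ S := hS y hy n k (by rwa [Function.iterate_add_apply, hk])
      rw [Finset.sum_eq_single_of_mem _ hm]
      · simp [hk]; ring
      · intro v _ hv; simp [hv.symm]
    · rw [if_neg hk, mul_zero, Finset.sum_eq_zero]
      intro v _
      by_cases hv : σ^[k] y = v
      · subst hv; simp [hk]
      · simp [hv]

/-- The finite dimensional representation. -/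
noncomputable def R (hz : ‖z‖ < 1) (S : Finset Ω) : A →ₗ[ℂ] Matrix S S ℂ where
  toFun a := Matrix.of fun w y => d.Φ hz w y a
  map_add' a b := by ext; simp
  map_smul' r a := by ext; simp

omit [IsScalarTower ℂ A A] [SMulCommClass ℂ A A] in
lemma R_apply (hz : ‖z‖ < 1) (S : Finset Ω) (a : A) (w y : S) :
    d.R hz S a w y = d.Φ hz w y a := rfl

lemma R_mul (hz : ‖z‖ < 1) {S : Finset Ω} (hS : Cvx σ S) (a b : A) :
    d.R hz S (a * b) = d.R hz S a * d.R hz S b := by
  ext w y
  rw [R_apply, d.Φ_mul hz hS w.2 y.2, Matrix.mul_apply, ← Finset.sum_coe_sort]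
  rfl

omit [IsScalarTower ℂ A A] [SMulCommClass ℂ A A] in
lemma R_cont (hz : ‖z‖ < 1) (S : Finset Ω) : Continuous (d.R hz S) :=
  continuous_pi fun w => continuous_pi fun y => (d.Φ hz w y).continuous

omit [IsScalarTower ℂ A A] [SMulCommClass ℂ A A] in
lemma R_single (hz : ‖z‖ < 1) (S : Finset Ω) {n a G} (h : d.H n a G) (w y : S)
    (hw : σ^[n] y = w) (hG : ∀ v ∈ S, v ≠ y → G v = 0) :
    d.R hz S a = Matrix.single w y (z ^ n * G y) := by
  ext w' y'
  rw [R_apply, d.Φ_H hz _ _ h, Matrix.single_apply]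
  by_cases hy : y = y'
  · subst hy
    rw [hw]
    by_cases h' : w = w'
    · subst h'; simp
    · rw [if_neg fun e => h' (Subtype.ext e), if_neg fun e => h' e.1]
  · simp [hy, hG y' y'.2 fun e => hy (Subtype.ext e.symm)]

omit [IsScalarTower ℂ A A] [SMulCommClass ℂ A A] in
lemma R_zero (hz : ‖z‖ < 1) (S : Finset Ω) {n a G} (h : d.H n a G)
    (hG : ∀ v ∈ S, σ^[n] v ∈ S → G v = 0) : d.R hz S a = 0 := by
  ext w y
  rw [R_apply, d.Φ_H hz _ _ h]
  split_ifs with e
  · simp [hG y y.2 (e ▸ w.2)]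
  · rfl

variable [T2Space Ω] [LocallyCompactSpace Ω]

omit [IsScalarTower ℂ A A] [SMulCommClass ℂ A A] in
lemma ex_H (S : Finset Ω) (y : Ω) (n : ℕ) :
    ∃ u G, d.H n u G ∧ G y = 1 ∧ ∀ v ∈ S, v ≠ y → G v = 0 := by
  induction n with
  | zero =>
    obtain ⟨g, h1, h2⟩ := bump (S : Set Ω) S.finite_toSet y
    exact ⟨_, g, d.hp g, h1, h2⟩
  | succ n ih =>
    obtain ⟨u, G, h, h1, h2⟩ := ih
    obtain ⟨F, hF, -⟩ := bump ∅ finite_empty (σ^[n] y)
    obtain ⟨b, G', h', e⟩ := d.ht F h
    exact ⟨b, G', h', by rw [e, hF, h1, one_mul], fun v hv hvy => by rw [e, h2 v hv hvy, mul_zero]⟩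

section Der

variable (hz : ‖z‖ < 1) {S : Finset Ω} (hS : Cvx σ S) {D : A →L[ℂ] A}
  (hD : ∀ a b, D (a * b) = D a * b + a * D b)
include hS hD

omit [T2Space Ω] [LocallyCompactSpace Ω] in
lemma K1 {n a G} (h : d.H n a G) (hG : ∀ v ∈ S, G v = 0) : d.R hz S (D a) = 0 := by
  have hc : IsClosed {b | d.R hz S (D b) = 0} :=
    isClosed_eq ((d.R_cont hz S).comp D.continuous) continuous_const
  refine hc.closure_subset (Metric.mem_closure_iff.2 fun ε hε => ?_)
  obtain ⟨k, hk, hk'⟩ := cutoff G (half_pos hε)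
  obtain ⟨G', h', e⟩ := d.hmul h (d.hp k)
  have e' : G' = G * k := by ext x; simp [e]
  refine ⟨a * d.p k, ?_, ?_⟩
  · have h1 := d.R_zero hz S h fun v hv _ => hG v hv
    have h2 := d.R_zero hz S (d.hp k) fun v hv _ => hk v (hG v hv)
    simp only [mem_setOf_eq, hD, map_add, d.R_mul hz hS, h1, h2, mul_zero, zero_mul, add_zero]
  · rw [zero_add] at h'
    have := d.hnorm (d.hsub 1 h h')
    rw [one_smul, one_smul, e'] at this
    rw [dist_eq_norm]; linarith

lemma diag {c : A} (hc : d.R hz S c = 0) (w : S) : d.R hz S (D c) w w = 0 := by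
  obtain ⟨u, G, h, h1, h2⟩ := d.ex_H S w 0
  have hu := d.R_single hz S h w w rfl h2
  rw [pow_zero, h1, one_mul] at hu
  set τ := d.R hz S (D c) w w
  have hc' : d.R hz S (u * c) = 0 := by rw [d.R_mul hz hS, hc, mul_zero]
  have hT : d.R hz S (D (u * c)) = Matrix.single w w 1 * d.R hz S (D c) := by
    rw [hD, map_add, d.R_mul hz hS, d.R_mul hz hS, hc, hu]; simp
  have hp : ∀ k : ℕ, ((Matrix.single w w 1 * d.R hz S (D c)) ^ k : Matrix S S ℂ) w w = τ ^ k := by
    intro k
    induction k with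
    | zero => simp
    | succ k ih =>
      rw [pow_succ, ← mul_assoc, Matrix.mul_apply, Finset.sum_eq_single w]
      · rw [Matrix.mul_single_apply_same, ih, mul_one, pow_succ]
      · intro v _ hv; rw [Matrix.mul_single_apply_of_ne (hbj := hv), zero_mul]
      · simp
  have hb : ∀ k, ‖pw (u * c) k‖ ≤ ‖u * c‖ ^ (k + 1) := by
    intro k
    induction k with
    | zero => simp [pw]
    | succ k ih => exact (norm_mul_le _ _).trans (by rw [pow_succ' _ (k + 1)]; gcongr)
  have hi : ∀ k b, ‖D^[k] b‖ ≤ ‖D‖ ^ k * ‖b‖ := by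
    intro k
    induction k with
    | zero => simp
    | succ k ih =>
      intro b
      rw [Function.iterate_succ_apply]
      refine (ih _).trans ?_
      rw [pow_succ, mul_assoc]; gcongr; exact D.le_opNorm b
  by_contra hτ
  have hτ' : 0 < ‖τ‖ := norm_pos_iff.2 hτ
  have key : ∀ k, 1 ≤ ‖d.Φ hz w w‖ * ((‖D‖ * ‖u * c‖ / ‖τ‖) ^ (k + 1) / (k + 1).factorial) := by
    intro k
    have h3 := (ord_pw (R := d.R hz S) (D := D.toLinearMap) (d.R_mul hz hS) hD hc' k).iter
    have h4 := congrFun (congrFun h3 w) w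
    simp only [ContinuousLinearMap.coe_coe, hT, Matrix.smul_apply, hp, R_apply,
      smul_eq_mul] at h4
    have h5 := ((d.Φ hz w w).le_opNorm _).trans (mul_le_mul_of_nonneg_left
      ((hi (k + 1) _).trans (mul_le_mul_of_nonneg_left (hb k) (by positivity))) (norm_nonneg _))
    rw [h4, norm_mul, norm_pow, Complex.norm_natCast] at h5
    have hf : (0 : ℝ) < (k + 1).factorial := by positivity
    rw [div_pow, mul_pow, div_div, ← mul_div_assoc, one_le_div (by positivity), mul_comm]
    exact h5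
  have ht := ((FloorSemiring.tendsto_pow_div_factorial_atTop (‖D‖ * ‖u * c‖ / ‖τ‖)).comp
    (tendsto_add_atTop_nat 1)).const_mul ‖d.Φ hz w w‖
  have := ge_of_tendsto' ht key
  norm_num at this

lemma ker (hz0 : z ≠ 0) {a : A} (ha : d.R hz S a = 0) : d.R hz S (D a) = 0 := by
  ext w y
  by_cases hex : ∃ n, σ^[n] y = w
  swap
  · push Not at hex
    simp [R_apply, Φ_apply, hex]
  obtain ⟨e, E, he, he1, he2⟩ := d.ex_H S w 0
  obtain ⟨g, G, hg, hg1, hg2⟩ := d.ex_H S y 0
  obtain ⟨u, U, hu, hu1, hu2⟩ := d.ex_H S y (Nat.find hex)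
  have hn := Nat.find_spec hex
  have Re := d.R_single hz S he w w rfl he2
  have Rg := d.R_single hz S hg y y rfl hg2
  have Ru := d.R_single hz S hu w y hn hu2
  rw [pow_zero, he1, one_mul] at Re
  rw [pow_zero, hg1, one_mul] at Rg
  rw [hu1, mul_one] at Ru
  have main : ∀ a, d.Φ hz w y (D (e * a * g)) =
      d.Φ hz w y (D (e * u)) / z ^ Nat.find hex * d.Φ hz w y a := by
    intro a
    induction a using d.ind with
    | hc => exact isClosed_eq (by fun_prop) (by fun_prop)
    | h0 => simp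
    | ha a a' h h' => simp only [mul_add, add_mul, map_add, h, h']
    | hs r a h => simp only [mul_smul_comm, smul_mul_assoc, map_smul, h, smul_eq_mul]; ring
    | hH m a F h =>
      obtain ⟨F1, h1, e1⟩ := d.hmul he h
      obtain ⟨F2, h2, e2⟩ := d.hmul h1 hg
      simp only [add_zero, zero_add, Function.iterate_zero, id] at h1 h2 e1 e2
      rw [d.Φ_H hz _ _ h]
      split_ifs with hm
      · obtain ⟨k, rfl⟩ : ∃ k, m = Nat.find hex + k := Nat.exists_eq_add_of_le (Nat.find_min' hex hm)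
        have hk : σ^[k] w = w := by
          rw [← hn, ← Function.iterate_add_apply, add_comm, hm, hn]
        obtain ⟨c, C, hc, hc1, hc2⟩ := d.ex_H S w k
        have Rc := d.R_single hz S hc w w hk hc2
        rw [hc1, mul_one] at Rc
        obtain ⟨F3, h3, e3⟩ := d.hmul hc hu
        have z1 := d.K1 hz hS hD (d.hsub (F y) h2 h3) fun v hv => by
          by_cases hvy : v = y
          · subst hvy
            simp [e1, e2, e3, hm, hn, he1, hg1, hc1, hu1]
          · simp [e2, e3, hg2 v hv hvy, hu2 v hv hvy]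
        have z2 : d.R hz S (c - z ^ k • e) = 0 := by
          rw [map_sub, map_smul, Rc, Re]; simp
        have z3 : d.R hz S (D ((c - z ^ k • e) * u)) w y = 0 := by
          rw [hD, map_add, d.R_mul hz hS, d.R_mul hz hS, z2, Ru, zero_mul, add_zero,
            Matrix.mul_single_apply_same, d.diag hz hS hD z2, zero_mul]
        have z4 := congrFun (congrFun z1 w) y
        simp only [R_apply, sub_mul, smul_mul_assoc, map_sub, map_smul, smul_eq_mul,
          Matrix.zero_apply] at z3 z4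
        rw [sub_eq_zero] at z3 z4
        rw [z4, z3, pow_add]
        field_simp
      · obtain ⟨f, hf1, hf2⟩ := bump (insert (σ^[m] y) (S : Set Ω)) (S.finite_toSet.insert _) w
        have Rf := d.R_single hz S (d.hp f) w w rfl fun v hv => hf2 v (Or.inr hv)
        rw [pow_zero, hf1, one_mul] at Rf
        have hb : d.R hz S (e * a * g) = 0 := d.R_zero hz S h2 fun v hv hv' => by
          by_cases hvy : v = y
          · subst hvy
            simp [e1, e2, he2 _ hv' hm]
          · simp [e2, hg2 v hv hvy]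
        obtain ⟨F3, h3, e3⟩ := d.hmul (d.hp f) h2
        have z1 := d.K1 hz hS hD h3 fun v hv => by
          by_cases hvy : v = y
          · subst hvy
            simp [e3, hf2 _ (Or.inl rfl) hm]
          · simp [e2, e3, hg2 v hv hvy]
        rw [hD, map_add, d.R_mul hz hS, hb, d.R_mul hz hS, Rf, mul_zero, zero_add] at z1
        have z4 := congrFun (congrFun z1 w) y
        rw [Matrix.single_mul_apply_same, one_mul, R_apply] at z4
        rw [z4]; simp
  have h1 := main a
  have h2 : d.Φ hz w y a = 0 := congrFun (congrFun ha w) y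
  rw [h2, mul_zero, ← R_apply, hD, hD] at h1
  simp only [map_add, d.R_mul hz hS, ha, Re, Rg, mul_zero, zero_mul, add_zero, zero_add] at h1
  rwa [Matrix.mul_single_apply_same, Matrix.single_mul_apply_same, one_mul, mul_one] at h1

end Der

lemma ex_unit (hz : ‖z‖ < 1) (hz0 : z ≠ 0) (S : Finset Ω) (w y : S) :
    ∃ u, d.R hz S u = Matrix.single w y 1 ∨ (d.R hz S u = 0 ∧ ∀ a, d.R hz S a w y = 0) := by
  by_cases hex : ∃ n, σ^[n] y = w
  · obtain ⟨n, hn⟩ := hex
    obtain ⟨u, U, hu, hu1, hu2⟩ := d.ex_H S y n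
    refine ⟨(z ^ n)⁻¹ • u, Or.inl ?_⟩
    rw [map_smul, d.R_single hz S hu w y hn hu2, hu1]
    simp [pow_ne_zero n hz0]
  · push Not at hex
    exact ⟨0, Or.inr ⟨map_zero _, fun a => by simp [R_apply, Φ_apply, hex]⟩⟩

lemma span_idem (hz : ‖z‖ < 1) (hz0 : z ≠ 0) (S : Finset Ω) (a : A) :
    a ∈ Submodule.span ℂ {q | d.R hz S q * d.R hz S q = d.R hz S q} := by
  choose u hu using d.ex_unit hz hz0 S
  have hd : ∀ w, ∃ e, d.R hz S e = Matrix.single w w 1 := fun w => by
    obtain ⟨e, E, he, he1, he2⟩ := d.ex_H S w 0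
    exact ⟨e, by rw [d.R_single hz S he w w rfl he2, he1]; simp⟩
  have h1 : ∀ w y, u w y ∈ Submodule.span ℂ {q | d.R hz S q * d.R hz S q = d.R hz S q} := by
    intro w y
    rcases hu w y with h | h
    · by_cases hwy : w = y
      · subst hwy
        exact Submodule.subset_span (by simp [h])
      · obtain ⟨e, he⟩ := hd w
        rw [show u w y = (e + u w y) - e by abel]
        refine Submodule.sub_mem _ (Submodule.subset_span ?_) (Submodule.subset_span (by simp [he]))
        simp [h, he, mul_add, add_mul, Matrix.single_mul_single_of_ne _ _ _ _ (Ne.symm hwy)]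
    · exact Submodule.subset_span (by simp [h.1])
  have h2 : d.R hz S (∑ w, ∑ y, d.R hz S a w y • u w y) = d.R hz S a := by
    simp only [map_sum, map_smul]
    conv_rhs => rw [Matrix.matrix_eq_sum_single (d.R hz S a)]
    refine Finset.sum_congr rfl fun w _ => Finset.sum_congr rfl fun y _ => ?_
    rcases hu w y with h | h
    · simp [h]
    · simp [h.1, h.2]
  rw [show a = (a - ∑ w, ∑ y, d.R hz S a w y • u w y) + ∑ w, ∑ y, d.R hz S a w y • u w y by abel]
  refine Submodule.add_mem _ (Submodule.subset_span (by simp only [mem_setOf_eq, map_sub, h2]; simp))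
    (Submodule.sum_mem _ fun w _ => Submodule.sum_mem _ fun y _ => Submodule.smul_mem _ _ (h1 w y))

include d in
theorem main (δ : A →L[ℂ] A) (hδ : ∀ a, ∃ D : ℕ → A →L[ℂ] A,
    (∀ n a b, D n (a * b) = D n a * b + a * D n b) ∧ Tendsto (fun n => D n a) atTop (𝓝 (δ a)))
    (a b : A) : δ (a * b) = δ a * b + a * δ b := by
  have key : ∀ (z : ℂ) (hz : ‖z‖ < 1), z ≠ 0 → ∀ S, Cvx σ S →
      d.R hz S (δ (a * b)) = d.R hz S (δ a) * d.R hz S b + d.R hz S a * d.R hz S (δ b) := by
    intro z hz hz0 S hS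
    set R := d.R hz S with hR
    have hm : ∀ a b, R (a * b) = R a * R b := d.R_mul hz hS
    have hc : Continuous R := d.R_cont hz S
    have Z : ∀ c a b, R c * R a = 0 → R a * R b = 0 → R c * R (δ a) * R b = 0 := by
      intro c a b h1 h2
      obtain ⟨D, hD, hl⟩ := hδ a
      have ht : Tendsto (fun n => R c * R (D n a) * R b) atTop (𝓝 (R c * R (δ a) * R b)) :=
        (((hc.tendsto _).comp hl).const_mul _).mul_const _
      refine tendsto_nhds_unique ht (tendsto_const_nhds.congr fun n => ?_)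
      have h3 := d.ker hz hS (hD n) hz0 (a := c * a) ((hm _ _).trans h1)
      rw [hD, ← hR, map_add, hm, hm] at h3
      have h4 := congrArg (· * R b) h3
      simp only [add_mul, mul_assoc, zero_mul, h2, mul_zero, zero_add] at h4
      rw [mul_assoc, h4]
    obtain ⟨e, he⟩ : ∃ e, R e = 1 := by
      choose u hu using fun w : S => d.ex_H S w 0
      refine ⟨∑ w, u w, ?_⟩
      rw [map_sum, ← Matrix.sum_single_one]
      refine Finset.sum_congr rfl fun w _ => ?_
      obtain ⟨E, he, he1, he2⟩ := hu w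
      rw [d.R_single hz S he w w rfl he2, he1]; simp
    have hde : R (δ e) = 0 := by
      obtain ⟨D, hD, hl⟩ := hδ e
      refine tendsto_nhds_unique ((hc.tendsto _).comp hl) (tendsto_const_nhds.congr fun n => ?_)
      have h3 := d.ker hz hS (hD n) hz0 (a := e * e - e) (by rw [← hR, map_sub, hm, he]; simp)
      rw [map_sub, hD, ← hR, map_sub, map_add, hm, hm, he] at h3
      simpa using h3.symm
    have idem : ∀ p q, R p * R p = R p → R q * R q = R q →
        R (δ (p * q)) = R (δ p) * R q + R p * R (δ q) := by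
      intro p q hp hq
      have hp' : ∀ X, R p * (R p * X) = R p * X := fun X => by rw [← mul_assoc, hp]
      have h1 := Z (e - p) (p * q) (e - q) (by simp [hm, he, sub_mul, hp'])
        (by simp [hm, he, mul_sub, mul_assoc, hq])
      have h2 := Z p (q - p * q) (e - q) (by simp [hm, mul_sub, hp'])
        (by simp [hm, he, mul_sub, sub_mul, mul_assoc, hq])
      have h3 := Z (e - p) (p - p * q) q (by simp [hm, he, mul_sub, sub_mul, hp, hp'])
        (by simp [hm, sub_mul, mul_assoc, hq])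
      have h4 := Z p (e - p - q + p * q) q
        (by simp [hm, he, mul_sub, mul_add, hp, hp'])
        (by simp [hm, he, sub_mul, add_mul, mul_assoc, hq])
      simp only [map_sub, map_add, he, hde] at h1 h2 h3 h4
      have : R (δ (p * q)) - (R (δ p) * R q + R p * R (δ q)) =
        (1 - R p) * R (δ (p * q)) * (1 - R q) - R p * (R (δ q) - R (δ (p * q))) * (1 - R q)
          - (1 - R p) * (R (δ p) - R (δ (p * q))) * R q
          + R p * (0 - R (δ p) - R (δ q) + R (δ (p * q))) * R q := by noncomm_ring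
      rw [h1, h2, h3, h4] at this
      simpa [sub_eq_zero] using this
    refine Submodule.span_induction₂ (p := fun a b _ _ =>
      R (δ (a * b)) = R (δ a) * R b + R a * R (δ b)) (fun p q hp hq => idem p q hp hq)
      (by simp) (by simp) ?_ ?_ ?_ ?_ (d.span_idem hz hz0 S a) (d.span_idem hz hz0 S b)
    · intro x y v _ _ _ h1 h2
      simp only [add_mul, map_add, h1, h2]; abel
    · intro x y v _ _ _ h1 h2
      simp only [mul_add, map_add, h1, h2]; abel
    · intro r x y _ _ h
      simp only [smul_mul_assoc, map_smul, h, smul_add]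
    · intro r x y _ _ h
      simp only [mul_smul_comm, map_smul, h, smul_add]
  rw [← sub_eq_zero]
  refine d.sep _ fun n x => ?_
  obtain ⟨S, hS, hx, hn⟩ := exists_cvx σ x n
  have := coef_zero (u := fun k => if σ^[k] x = σ^[n] x then
      d.c k x (δ (a * b) - (δ a * b + a * δ b)) else 0) (C := ‖δ (a * b) - (δ a * b + a * δ b)‖)
    (fun k => by split_ifs; exacts [d.cle _ _ _, by simp]) (fun z hz0 hz => by
      have h : d.R hz S (δ (a * b) - (δ a * b + a * δ b)) = 0 := by
        rw [map_sub, map_add, d.R_mul hz hS, d.R_mul hz hS, key z hz hz0 S hS, sub_self]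
      exact congrFun (congrFun h ⟨_, hn⟩) ⟨_, hx⟩) n
  simpa using this

end Dat

end Pool.Agent.H.MP_7ad892_an
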