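import Pool.Agent.H.MP_7ad892_an.B

namespace Pool.Agent.H.MP_7ad892_an

open Set Filter Topology MeasureTheory
open scoped ZeroAtInfty InnerProductSpace

/-- The sequence space. -/
noncomputable abbrev L2 := lp (fun _ : ℕ => ℂ) 2

lemma nsq (a : L2) : HasSum (fun k => ‖a k‖ ^ 2) (‖a‖ ^ 2) := by
  simpa using lp.hasSum_norm (p := 2) (by simp) a

lemma exW (k : ℕ) {w : ℕ → ℂ} {C : ℝ} (hw : ∀ n, ‖w n‖ ≤ C) : ∃ T : L2 →L[ℂ] L2,
    (∀ (v : L2) j, T v (j + k) = w j * v j) ∧ ∀ (v : L2) j, j < k → T v j = 0 := by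
  have hC : 0 ≤ C := (norm_nonneg _).trans (hw 0)
  let f : L2 → ℕ → ℂ := fun v j => if k ≤ j then w (j - k) * v (j - k) else 0
  have f1 : ∀ v j, f v (j + k) = w j * v j := fun v j => by simp [f]
  have f2 : ∀ v j, j < k → f v j = 0 := fun v j h => by simp [f, h]
  have hb : ∀ (v : L2) j, ‖f v (j + k)‖ ^ 2 ≤ C ^ 2 * ‖v j‖ ^ 2 := fun v j => by
    rw [f1, norm_mul, mul_pow]; gcongr; exact hw j
  have hs : ∀ v : L2, Summable fun j => ‖f v (j + k)‖ ^ 2 := fun v =>
    Summable.of_nonneg_of_le (fun _ => by positivity) (hb v) ((nsq v).summable.mul_left _)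
  have hm : ∀ v, Memℓp (f v) 2 := fun v =>
    memℓp_gen (by simpa using (summable_nat_add_iff k).1 (hs v))
  let T0 : L2 →ₗ[ℂ] L2 :=
    { toFun := fun v => ⟨f v, hm v⟩
      map_add' := fun u v => by
        ext j; change f (u + v) j = f u j + f v j
        simp only [f]; split_ifs <;> simp [mul_add]
      map_smul' := fun r v => by
        ext j; change f (r • v) j = r * f v j
        simp only [f]; split_ifs <;> simp [mul_left_comm] }
  refine ⟨T0.mkContinuous C fun v => ?_, f1, f2⟩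
  have h1 := (hasSum_nat_add_iff' k).2 (nsq (T0 v))
  rw [Finset.sum_eq_zero (fun i hi => by
    change ‖f v i‖ ^ 2 = 0; simp [f2 v i (Finset.mem_range.1 hi)]), sub_zero] at h1
  have := hasSum_le (hb v) h1 ((nsq v).mul_left _)
  rw [← mul_pow] at this
  exact (pow_le_pow_iff_left₀ (norm_nonneg _) (by positivity) two_ne_zero).1 this

variable {Ω : Type} [TopologicalSpace Ω] (σ : Ω → Ω)

/-- Weighted shifts along an orbit. -/
noncomputable def W (x : Ω) (k : ℕ) (F : C₀(Ω, ℂ)) : L2 →L[ℂ] L2 :=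
  (exW k (w := fun n => F (σ^[n] x)) fun _ => le_nrm F _).choose

lemma W1 (x : Ω) (k : ℕ) (F : C₀(Ω, ℂ)) (v : L2) (j : ℕ) :
    W σ x k F v (j + k) = F (σ^[j] x) * v j :=
  (exW k (w := fun n => F (σ^[n] x)) fun _ => le_nrm F _).choose_spec.1 v j

lemma W2 (x : Ω) (k : ℕ) (F : C₀(Ω, ℂ)) (v : L2) (j : ℕ) (h : j < k) : W σ x k F v j = 0 :=
  (exW k (w := fun n => F (σ^[n] x)) fun _ => le_nrm F _).choose_spec.2 v j h

lemma W0 (x : Ω) (F : C₀(Ω, ℂ)) (v : L2) (j : ℕ) : W σ x 0 F v j = F (σ^[j] x) * v j :=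
  W1 σ x 0 F v j

lemma Wext {x : Ω} {k : ℕ} {F : C₀(Ω, ℂ)} {T : L2 →L[ℂ] L2}
    (h1 : ∀ (v : L2) j, T v (j + k) = F (σ^[j] x) * v j) (h2 : ∀ (v : L2) j, j < k → T v j = 0) :
    W σ x k F = T := by
  ext v j
  rcases lt_or_ge j k with h | h
  · rw [W2 σ x k F v j h, h2 v j h]
  · obtain ⟨i, rfl⟩ := Nat.exists_eq_add_of_le' h
    rw [W1, h1]

lemma Wmul (x : Ω) {k l : ℕ} {F G H : C₀(Ω, ℂ)} (h : ∀ y, H y = F (σ^[l] y) * G y) :
    W σ x (l + k) H = W σ x k F * W σ x l G := by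
  refine Wext σ (fun v j => ?_) fun v j hj => ?_
  · rw [← add_assoc, ContinuousLinearMap.mul_apply, W1, W1, h, add_comm j l,
      Function.iterate_add_apply, mul_assoc]
  · rw [ContinuousLinearMap.mul_apply]
    rcases lt_or_ge j k with h | h
    · exact W2 σ x k F _ j h
    · obtain ⟨i, rfl⟩ := Nat.exists_eq_add_of_le' h
      rw [W1, W2 σ x l G v i (by omega), mul_zero]

lemma Winner (x : Ω) (k : ℕ) (F G : C₀(Ω, ℂ)) :
    star (W σ x k F) * W σ x k G = W σ x 0 (star F * G) := by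
  ext1 v
  refine ext_inner_left ℂ fun u => ?_
  rw [ContinuousLinearMap.mul_apply, ContinuousLinearMap.star_eq_adjoint,
    ContinuousLinearMap.adjoint_inner_right]
  have h1 := (hasSum_nat_add_iff' k).2 (lp.hasSum_inner (𝕜 := ℂ) (W σ x k F u) (W σ x k G v))
  rw [Finset.sum_eq_zero (fun i hi => by simp [W2 σ x k G v i (Finset.mem_range.1 hi)]),
    sub_zero] at h1
  refine h1.unique ?_
  refine (lp.hasSum_inner (𝕜 := ℂ) u (W σ x 0 (star F * G) v)).congr_fun fun j => ?_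
  rw [W1, W1, W0]; simp; ring

lemma Wstar (x : Ω) (F : C₀(Ω, ℂ)) : W σ x 0 (star F) = star (W σ x 0 F) := by
  rw [ContinuousLinearMap.star_eq_adjoint, eq_comm, eq_comm, ContinuousLinearMap.eq_adjoint_iff]
  intro u v
  refine (lp.hasSum_inner (𝕜 := ℂ) _ _).unique ?_
  convert lp.hasSum_inner (𝕜 := ℂ) u (W σ x 0 F v) using 2 with j
  simp [W0]; ring

/-- The weighted shift as a linear map of the weight. -/
noncomputable def Wl (x : Ω) (k : ℕ) : C₀(Ω, ℂ) →ₗ[ℂ] L2 →L[ℂ] L2 where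
  toFun := W σ x k
  map_add' F G := Wext σ (fun v j => by simp [W1, add_mul]) fun v j h => by simp [W2 σ x k _ v j h]
  map_smul' r F := Wext σ (fun v j => by simp [W1, mul_assoc])
    fun v j h => by simp [W2 σ x k _ v j h]

/-- The diagonal representation along an orbit. -/
noncomputable def Wp (x : Ω) : C₀(Ω, ℂ) →⋆ₙₐ[ℂ] L2 →L[ℂ] L2 where
  toFun := W σ x 0
  map_smul' := (Wl σ x 0).map_smul
  map_zero' := (Wl σ x 0).map_zero
  map_add' := (Wl σ x 0).map_add
  map_mul' _ _ := Wmul σ x (k := 0) (l := 0) fun _ => rfl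
  map_star' := Wstar σ x

/-- Toeplitz representations of the correspondence of `σ`. -/
def Toep {B : Type} [NonUnitalCStarAlgebra B] (π : C₀(Ω, ℂ) →⋆ₙₐ[ℂ] B) (t : C₀(Ω, ℂ) →ₗ[ℂ] B) :
    Prop :=
  (∀ f F H : C₀(Ω, ℂ), (∀ x, H x = f (σ x) * F x) → t H = π f * t F) ∧
    ∀ F G : C₀(Ω, ℂ), star (t F) * t G = π (star F * G)

lemma toepW (x : Ω) : Toep σ (Wp σ x) (Wl σ x 1) :=
  ⟨fun _ _ _ h => Wmul σ x (k := 0) (l := 1) h, Winner σ x 1⟩

variable {B : Type} [NonUnitalCStarAlgebra B] (π : C₀(Ω, ℂ) →⋆ₙₐ[ℂ] B) (t : C₀(Ω, ℂ) →ₗ[ℂ] B)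

/-- Homogeneous elements and their symbols. -/
inductive HB : ℕ → B → C₀(Ω, ℂ) → Prop
  | p (f) : HB 0 (π f) f
  | tm {n a G} (F G' : C₀(Ω, ℂ)) : HB n a G → (∀ x, G' x = F (σ^[n] x) * G x) →
      HB (n + 1) (t F * a) G'
  | sub {n a G b G'} (r : ℂ) : HB n a G → HB n b G' → HB n (a - r • b) (G - r • G')

variable {σ π t}

lemma ex_cmp (hσ : IsProperMap σ) (F G : C₀(Ω, ℂ)) (n : ℕ) :
    ∃ G' : C₀(Ω, ℂ), ∀ x, G' x = F (σ^[n] x) * G x := by
  have : ∃ F' : C₀(Ω, ℂ), ∀ x, F' x = F (σ^[n] x) := by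
    induction n with
    | zero => exact ⟨F, fun _ => rfl⟩
    | succ n ih =>
      obtain ⟨F', h⟩ := ih
      exact ⟨F'.comp ⟨⟨σ, hσ.continuous⟩, (CocompactMap.tendsto_of_forall_preimage fun _ hs =>
        hσ.isCompact_preimage hs)⟩, fun x => h (σ x)⟩
  obtain ⟨F', h⟩ := this
  exact ⟨F' * G, fun x => by simp [h]⟩

lemma HB.pmul (hσ : IsProperMap σ) (ht : Toep σ π t) {m b G'} (h : HB σ π t m b G') :
    ∀ f G'' : C₀(Ω, ℂ), (∀ x, G'' x = f (σ^[m] x) * G' x) → HB σ π t m (π f * b) G'' := by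
  induction h with
  | p g =>
    intro f G'' e
    rw [← map_mul, show G'' = f * g from ZeroAtInftyContinuousMap.ext e]; exact HB.p _
  | tm F G' h e' _ =>
    intro f G'' e
    obtain ⟨F', hF⟩ := ex_cmp hσ f F 1
    rw [← mul_assoc, ← ht.1 f F F' hF]
    refine HB.tm F' G'' h fun x => ?_
    rw [e, e', hF, mul_assoc, ← Function.iterate_add_apply, add_comm]
  | @sub n a G b G' r _ _ ih ih' =>
    intro f G'' e
    obtain ⟨G1, h1⟩ := ex_cmp hσ f G n
    obtain ⟨G2, h2⟩ := ex_cmp hσ f G' n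
    have := HB.sub r (ih f G1 h1) (ih' f G2 h2)
    rw [mul_sub, mul_smul_comm]
    convert this using 1
    ext x; simp [e, h1, h2]; ring

lemma HB.mul (hσ : IsProperMap σ) (ht : Toep σ π t) {n a G m b G'} (h : HB σ π t n a G)
    (h' : HB σ π t m b G') :
    ∀ G'' : C₀(Ω, ℂ), (∀ x, G'' x = G (σ^[m] x) * G' x) → HB σ π t (m + n) (a * b) G'' := by
  induction h with
  | p f => exact h'.pmul hσ ht f
  | @tm n a G F G1 _ e' ih =>
    intro G'' e
    obtain ⟨G2, h2⟩ := ex_cmp hσ G G' m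
    rw [mul_assoc]
    refine HB.tm F G'' (ih G2 h2) fun x => ?_
    rw [e, e', h2, mul_assoc, ← Function.iterate_add_apply, add_comm]; rfl
  | @sub n a G c G1 r _ _ ih ih' =>
    intro G'' e
    obtain ⟨G2, h2⟩ := ex_cmp hσ G G' m
    obtain ⟨G3, h3⟩ := ex_cmp hσ G1 G' m
    have := HB.sub r (ih G2 h2) (ih' G3 h3)
    rw [sub_mul, smul_mul_assoc]
    convert this using 1
    ext x; simp [e, h2, h3]; ring

lemma HB.zero_eq {n a G} (h : HB σ π t n a G) : n = 0 → a = π G := by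
  induction h with
  | p f => exact fun _ => rfl
  | tm => intro h; omega
  | sub r _ _ ih ih' => intro h; rw [ih h, ih' h, map_sub, map_smul]

lemma HB.inner (hσ : IsProperMap σ) (ht : Toep σ π t) (n : ℕ) : ∀ {a G b G'},
    HB σ π t n a G → HB σ π t n b G' → star a * b = π (star G * G') := by
  induction n with
  | zero => intro a G b G' h h'; rw [h.zero_eq rfl, h'.zero_eq rfl, map_mul, map_star]
  | succ n ih =>
    have k1 : ∀ {a G} (F G1 : C₀(Ω, ℂ)), HB σ π t n a G → (∀ x, G1 x = F (σ^[n] x) * G x) →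
        ∀ {m b G'}, HB σ π t m b G' → m = n + 1 → star (t F * a) * b = π (star G1 * G') := by
      intro a G F G1 h e m b G' h'
      induction h' with
      | p f => intro h; omega
      | @tm m b G' F' G2 h' e' _ =>
        intro hm
        obtain rfl : m = n := by omega
        obtain ⟨G3, h3⟩ := ex_cmp hσ (star F * F') G' m
        rw [star_mul, mul_assoc, ← mul_assoc (star (t F)), ht.2, ih h (h'.pmul hσ ht _ G3 h3)]
        congr 1; ext x; simp [e, e', h3]; ring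
      | sub r _ _ i1 i2 =>
        intro hm
        rw [mul_sub, mul_smul_comm, i1 hm, i2 hm, mul_sub, mul_smul_comm, map_sub, map_smul]
    have k2 : ∀ {m a G}, HB σ π t m a G → m = n + 1 → ∀ {b G'}, HB σ π t (n + 1) b G' →
        star a * b = π (star G * G') := by
      intro m a G h
      induction h with
      | p f => intro h; omega
      | @tm m a G F G1 h e _ =>
        intro hm b G' h'
        obtain rfl : m = n := by omega
        exact k1 F G1 h e h' rfl
      | sub r _ _ i1 i2 =>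
        intro hm b G' h'
        rw [star_sub, star_smul, sub_mul, smul_mul_assoc, i1 hm h', i2 hm h', star_sub, star_smul,
          sub_mul, smul_mul_assoc, map_sub, map_smul]
    intro a G b G' h h'
    exact k2 h rfl h'

lemma nle {a : B} {G : C₀(Ω, ℂ)} (h : star a * a = π (star G * G)) : ‖a‖ ≤ ‖G‖ := by
  have h1 := NonUnitalStarAlgHom.norm_apply_le π (star G * G)
  have h2 : ‖star G * G‖ ≤ ‖G‖ * ‖G‖ := (norm_mul_le _ _).trans (by
    gcongr; exact nrm_le (norm_nonneg _) fun x => by simpa using le_nrm G x)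
  rw [← h, CStarRing.norm_star_mul_self] at h1
  exact abs_le_of_sq_le_sq' (by nlinarith) (norm_nonneg _) |>.2

lemma HB.map {B' : Type} [NonUnitalCStarAlgebra B'] {φ : B →⋆ₙₐ[ℂ] B'} {T : ℕ → C₀(Ω, ℂ) → B'}
    (h0 : ∀ f, φ (π f) = T 0 f) (h1 : ∀ n (F G G' : C₀(Ω, ℂ)), (∀ x, G' x = F (σ^[n] x) * G x) →
      φ (t F) * T n G = T (n + 1) G')
    (h2 : ∀ n (r : ℂ) G G', T n (G - r • G') = T n G - r • T n G') {n a G} (h : HB σ π t n a G) :
    φ a = T n G := by
  induction h with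
  | p f => exact h0 f
  | tm F G' _ e ih => rw [map_mul, ih, h1 _ _ _ _ e]
  | sub r _ _ i1 i2 => rw [map_sub, map_smul, i1, i2, h2]

lemma HB.gauge {γ : B →⋆ₙₐ[ℂ] B} {l : ℂ} (h0 : ∀ f, γ (π f) = π f) (h1 : ∀ F, γ (t F) = l • t F)
    {n a G} (h : HB σ π t n a G) : γ a = l ^ n • a := by
  induction h with
  | p f => simp [h0]
  | tm F G' _ e ih => rw [map_mul, ih, h1, smul_mul_smul_comm, pow_succ']
  | sub r _ _ i1 i2 => rw [map_sub, map_smul, i1, i2, smul_sub, smul_comm]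

lemma HB.ex (hσ : IsProperMap σ) (n : ℕ) : HB σ π t n 0 0 := by
  induction n with
  | zero => simpa using HB.p (σ := σ) (π := π) (t := t) 0
  | succ n ih => simpa using HB.tm 0 0 ih (by simp)

lemma tright (ht : Toep σ π t) (F g : C₀(Ω, ℂ)) : t F * π g = t (F * g) := by
  rw [← sub_eq_zero, ← norm_le_zero_iff]
  have := nle (π := π) (a := t F * π g - t (F * g)) (G := 0) (by
    rw [star_sub, star_mul, sub_mul, mul_sub, mul_sub, mul_assoc, mul_assoc,
      ← mul_assoc (star (t F)), ← mul_assoc (star (t (F * g))), ht.2, ht.2, ht.2, ht.2,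
      ← map_star, ← map_mul, ← map_mul, ← map_mul, ← map_mul, ← map_sub, ← map_sub, ← map_sub]
    congr 1; ext x; simp; ring)
  simpa using this

/-- The span of homogeneous elements. -/
def PB (σ : Ω → Ω) (π : C₀(Ω, ℂ) →⋆ₙₐ[ℂ] B) (t : C₀(Ω, ℂ) →ₗ[ℂ] B) : Submodule ℂ B :=
  Submodule.span ℂ {a | ∃ n G, HB σ π t n a G}

lemma gen_le (hσ : IsProperMap σ) (ht : Toep σ π t) {a : B}
    (ha : a ∈ (NonUnitalAlgebra.adjoin ℂ (range π ∪ range t)).topologicalClosure) :
    a ∈ closure (PB σ π t : Set B) := by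
  have hm : ∀ a ∈ PB σ π t, ∀ b ∈ PB σ π t, a * b ∈ PB σ π t := by
    intro a ha b hb
    refine Submodule.span_induction₂ (p := fun a b _ _ => a * b ∈ PB σ π t) ?_ (by simp) (by simp)
      ?_ ?_ ?_ ?_ ha hb
    · rintro a b ⟨n, G, h⟩ ⟨m, G', h'⟩
      obtain ⟨G'', e⟩ := ex_cmp hσ G G' m
      exact Submodule.subset_span ⟨_, _, h.mul hσ ht h' G'' e⟩
    · intro x y v _ _ _ h1 h2; rw [add_mul]; exact Submodule.add_mem _ h1 h2
    · intro x y v _ _ _ h1 h2; rw [mul_add]; exact Submodule.add_mem _ h1 h2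
    · intro r x y _ _ h; rw [smul_mul_assoc]; exact Submodule.smul_mem _ _ h
    · intro r x y _ _ h; rw [mul_smul_comm]; exact Submodule.smul_mem _ _ h
  let Q : NonUnitalSubalgebra ℂ B := (PB σ π t).toNonUnitalSubalgebra fun a b ha hb => hm a ha b hb
  refine NonUnitalSubalgebra.topologicalClosure_minimal (t := Q.topologicalClosure)
    (NonUnitalAlgebra.adjoin_le ?_) Q.isClosed_topologicalClosure ha
  rintro _ (⟨f, rfl⟩ | ⟨F, rfl⟩)
  · exact subset_closure (Submodule.subset_span ⟨_, _, HB.p f⟩)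
  · refine Metric.mem_closure_iff.2 fun ε hε => ?_
    obtain ⟨k, -, hk⟩ := cutoff F (half_pos hε)
    refine ⟨t F * π k, Submodule.subset_span ⟨_, F * k, HB.tm F _ (HB.p k) fun _ => rfl⟩, ?_⟩
    rw [tright ht, dist_eq_norm, ← map_sub]
    exact ((nle (ht.2 _ _)).trans hk).trans_lt (half_lt_self hε)

lemma HB.mem {n a G} (h : HB σ π t n a G) :
    a ∈ NonUnitalAlgebra.adjoin ℂ (range π ∪ range t) := by
  induction h with
  | p f => exact NonUnitalAlgebra.subset_adjoin ℂ (Or.inl ⟨f, rfl⟩)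
  | tm F _ _ _ ih => exact mul_mem (NonUnitalAlgebra.subset_adjoin ℂ (Or.inr ⟨F, rfl⟩)) ih
  | sub r _ _ i1 i2 => exact sub_mem i1 (SMulMemClass.smul_mem r i2)

lemma sepB (hσ : IsProperMap σ) (ht : Toep σ π t) (c : ℕ → Ω → B →L[ℂ] ℂ)
    (hc : ∀ n x a, ‖c n x a‖ ≤ ‖a‖)
    (cH : ∀ {n a G}, HB σ π t n a G → ∀ k y, c k y a = if k = n then G y else 0)
    (γ : AddCircle (1 : ℝ) → B →⋆ₙₐ[ℂ] B)
    (hγ : ∀ θ {n a G}, HB σ π t n a G → γ θ a = fourier 1 θ ^ n • a)
    {a : B} (ha : a ∈ closure (PB σ π t : Set B)) (h0 : ∀ n x, c n x a = 0) : a = 0 := by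
  refine SeparatingDual.eq_zero_of_forall_dual_eq_zero (R := ℂ) fun φ => ?_
  have hb : ∀ θ b, ‖φ (γ θ b)‖ ≤ ‖φ‖ * ‖b‖ := fun θ b =>
    (φ.le_opNorm _).trans (by gcongr; exact NonUnitalStarAlgHom.norm_apply_le _ _)
  have hp : ∀ (θ : AddCircle (1 : ℝ)) (n : ℕ), fourier 1 θ ^ n = fourier (n : ℤ) θ := by
    intro θ n
    induction n with
    | zero => simp
    | succ n ih => rw [pow_succ, ih, Nat.cast_succ, fourier_add]
  have c1 : ∀ b ∈ PB σ π t, (Continuous fun θ => φ (γ θ b)) ∧ γ 0 b = b := by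
    intro b hb
    refine Submodule.span_induction (p := fun b _ => (Continuous fun θ => φ (γ θ b)) ∧ γ 0 b = b)
      ?_ (by simpa using continuous_const) ?_ ?_ hb
    · rintro b ⟨n, G, h⟩
      simp only [hγ _ h, map_smul]
      exact ⟨by fun_prop, by simp⟩
    · intro x y _ _ h1 h2
      simp only [map_add, h1.2, h2.2]
      exact ⟨h1.1.add h2.1, trivial⟩
    · intro r x _ h
      simp only [map_smul, h.2]
      exact ⟨h.1.const_smul r, trivial⟩
  have c2 : Continuous fun θ => φ (γ θ a) := by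
    refine continuous_of_uniform_approx_of_continuous fun u hu => ?_
    obtain ⟨ε, hε, hu'⟩ := Metric.mem_uniformity_dist.1 hu
    obtain ⟨b, hb1, hb2⟩ := Metric.mem_closure_iff.1 ha (ε / (‖φ‖ + 1)) (by positivity)
    refine ⟨_, (c1 b hb1).1, fun θ => hu' ?_⟩
    rw [dist_eq_norm, ← map_sub, ← map_sub] at *
    refine (hb _ _).trans_lt ?_
    rw [lt_div_iff₀ (by positivity)] at hb2
    nlinarith [norm_nonneg (a - b)]
  have c3 : γ 0 a = a := closure_minimal (t := {b | γ 0 b = b}) (fun b hb => (c1 b hb).2)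
    (isClosed_eq (AddMonoidHomClass.continuous_of_bound (γ 0) 1 fun b => by
      simpa using NonUnitalStarAlgHom.norm_apply_le _ _) continuous_id) ha
  have hi : ∀ {g : AddCircle (1 : ℝ) → ℂ}, Continuous g → Integrable g AddCircle.haarAddCircle :=
    fun hg => hg.integrable_of_hasCompactSupport (HasCompactSupport.of_compactSpace _)
  have c4 : ∀ (n : ℤ), ∀ q ∈ PB σ π t, ∃ b G, HB σ π t n.toNat b G ∧
      fourierCoeff (fun θ => φ (γ θ q)) n = φ b ∧ ∀ x, G x = if 0 ≤ n then c n.toNat x q else 0 := by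
    intro n q hq
    refine Submodule.span_induction (p := fun q _ => ∃ b G, HB σ π t n.toNat b G ∧
      fourierCoeff (fun θ => φ (γ θ q)) n = φ b ∧ ∀ x, G x = if 0 ≤ n then c n.toNat x q else 0)
      ?_ ⟨0, 0, HB.ex hσ _, by simp [fourierCoeff], by simp⟩ ?_ ?_ hq
    · rintro b ⟨m, G, h⟩
      have e : fourierCoeff (fun θ => φ (γ θ b)) n = φ b * (Pi.single (m : ℤ) 1 : ℤ → ℂ) n := by
        simp only [hγ _ h, map_smul, hp, smul_eq_mul, mul_comm _ (φ b)]
        rw [fourierCoeff.const_mul, fourierCoeff_fourier]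
      by_cases hn : n = m
      · subst hn
        exact ⟨b, G, h, by simp [e], by simp [cH h]⟩
      · refine ⟨0, 0, HB.ex hσ _, by simp [e, hn], fun x => ?_⟩
        split_ifs with h1
        · rw [cH h, if_neg (by omega)]; rfl
        · rfl
    · rintro x y hx hy ⟨b, G, h1, h2, h3⟩ ⟨b', G', h1', h2', h3'⟩
      refine ⟨_, _, h1.sub (-1) h1', ?_, fun x => ?_⟩
      · have := congrFun (fourierCoeff.add (hi (c1 x hx).1) (hi (c1 y hy).1)) n
        simp only [map_add]
        rw [show (fun θ => φ (γ θ x) + φ (γ θ y)) = (fun θ => φ (γ θ x)) + fun θ => φ (γ θ y)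
          from rfl, this]
        simp [h2, h2']
      · simp only [ZeroAtInftyContinuousMap.sub_apply, ZeroAtInftyContinuousMap.smul_apply, h3, h3']
        split_ifs <;> simp
    · rintro r x hx ⟨b, G, h1, h2, h3⟩
      refine ⟨_, _, (HB.ex hσ _).sub (-r) h1, ?_, fun x => ?_⟩
      · simp only [map_smul, smul_eq_mul]
        rw [fourierCoeff.const_mul, h2]; simp
      · simp only [ZeroAtInftyContinuousMap.sub_apply, ZeroAtInftyContinuousMap.smul_apply, h3]
        split_ifs <;> simp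
  have c5 : ∀ n, fourierCoeff (fun θ => φ (γ θ a)) n = 0 := by
    intro n
    refine norm_le_zero_iff.1 (le_of_forall_pos_le_add fun ε hε => ?_)
    obtain ⟨q, hq1, hq2⟩ := Metric.mem_closure_iff.1 ha (ε / (2 * ‖φ‖ + 1)) (by positivity)
    obtain ⟨b, G, h1, h2, h3⟩ := c4 n q hq1
    rw [dist_eq_norm] at hq2
    have g1 : ‖G‖ ≤ ‖a - q‖ := nrm_le (norm_nonneg _) fun x => by
      rw [h3]; split_ifs
      · have := hc n.toNat x (a - q)
        rwa [map_sub, h0, zero_sub, norm_neg] at this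
      · simp
    have g2 : ‖φ b‖ ≤ ‖φ‖ * ‖a - q‖ :=
      (φ.le_opNorm _).trans (by gcongr; exact (nle (HB.inner hσ ht _ h1 h1)).trans g1)
    have c6 : Continuous fun θ => φ (γ θ (a - q)) := by
      simp only [map_sub]; exact c2.sub (c1 q hq1).1
    have g3 : ‖fourierCoeff (fun θ => φ (γ θ (a - q))) n‖ ≤ ‖φ‖ * ‖a - q‖ := by
      have := norm_integral_le_of_norm_le_const (μ := AddCircle.haarAddCircle (T := 1))
        (f := fun θ => fourier (-n) θ • φ (γ θ (a - q))) (C := ‖φ‖ * ‖a - q‖)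
        (Eventually.of_forall fun θ => by
          rw [norm_smul, fourier_apply, Circle.norm_coe, one_mul]; exact hb _ _)
      simpa [fourierCoeff] using this
    have g4 := congrFun (fourierCoeff.add (hi c6) (hi (c1 q hq1).1)) n
    have e : ((fun θ => φ (γ θ (a - q))) + fun θ => φ (γ θ q)) = fun θ => φ (γ θ a) := by
      ext θ; simp
    rw [e, Pi.add_apply, h2] at g4
    rw [g4]
    refine (norm_add_le _ _).trans ?_
    rw [lt_div_iff₀ (by positivity)] at hq2
    nlinarith [norm_nonneg (a - q)]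
  have := has_pointwise_sum_fourier_series_of_summable (f := ⟨_, c2⟩)
    (by change Summable (fourierCoeff fun θ => φ (γ θ a)); rw [funext c5]; exact summable_zero) 0
  change HasSum (fun i => fourierCoeff (fun θ => φ (γ θ a)) i • _) (φ (γ 0 a)) at this
  simp only [c5, zero_smul, c3] at this
  exact this.unique hasSum_zero

end Pool.Agent.H.MP_7ad892_an
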